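import Pool.Agent.Q171.QA.Lay

/-!
# `ℚ`-acyclic complexes with prescribed torsion and few vertices

The answer to Q1 of MP_5453bf_gt is positive: for every `d ≥ 2` there is a constant `C` such that
every nontrivial finite abelian group `G` is (exactly) `H_{d-1}(X; ℤ)` for some `d`-dimensional
`ℚ`-acyclic simplicial complex `X` with at most `C (log |G|)^{1/d}` vertices.

The construction: `X` has full `(d-1)`-skeleton on `{0, ..., N-1}`, a set `F` of `d`-faces avoiding
the vertex `0`, and all cones with apex `0` over the `(d-1)`-simplices avoiding `0` outside a set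
`B` with `|F| ≤ |B|`.  Then `H_{d-1}(X)` is the cokernel of the boundary map from `ℤ^F` to `ℤ^B`,
and `X` is `ℚ`-acyclic as soon as this group is finite.  The sets `B` and `F` form a machine
(a presentation of `G` by doubling and adding steps, arranged along a time line of length
`O(log |G|)`) which is folded into `O((log |G|)^{1/d})` vertices by the Chinese remainder theorem.
-/

set_option autoImplicit false

namespace Pool.Agent.Results.MP_5453bf_gt.PrescribedTorsion

open Q171.QA

theorem result (d : ℕ) (hd : 2 ≤ d) : ∃ C : ℝ, ∀ (G : Type) [AddCommGroup G] [Finite G]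
    [Nontrivial G], ∃ X : SComplex, X.HasDim d ∧ X.QAcyclic ∧ Nonempty (X.H ℤ (d - 1) ≃+ G) ∧
      (X.vertices.card : ℝ) ≤ C * (Real.log (Nat.card G)) ^ ((1 : ℝ) / d) :=
  main d hd

end Pool.Agent.Results.MP_5453bf_gt.PrescribedTorsion
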